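import Mathlib

/-!
# A coefficient of a polynomial is bounded by its values on the unit box
-/

set_option autoImplicit false

namespace Pool.FRP

open Finset MvPolynomial

/-- The grid of the unit box. -/
noncomputable def gd (m K : ℕ) (g : Fin m → Fin (K + 1)) : Fin m → ℝ := fun i => (g i : ℝ) / (K + 1)

theorem gd_le {m K : ℕ} (g : Fin m → Fin (K + 1)) (i : Fin m) : |gd m K g i| ≤ 1 := by
  unfold gd
  have h1 : ((g i : ℕ) : ℝ) ≤ K := by exact_mod_cast Nat.lt_succ_iff.1 (g i).2
  have h2 : (0 : ℝ) < K + 1 := by positivity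
  rw [abs_of_nonneg (by positivity), div_le_one h2]
  linarith

/-- The values on the grid. -/
noncomputable def vals (m K : ℕ) : restrictTotalDegree (Fin m) ℝ K →ₗ[ℝ]
    ((Fin m → Fin (K + 1)) → ℝ) where
  toFun f := fun g => eval (gd m K g) f.1
  map_add' f h := by
    funext g
    simp
  map_smul' a f := by
    funext g
    simp

theorem vals_inj (m K : ℕ) : LinearMap.ker (vals m K) = ⊥ := by
  rw [LinearMap.ker_eq_bot']
  intro f hf
  have h0 : f.1 = 0 := by
    refine eq_zero_of_eval_zero_at_prod_finset f.1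
      (fun _ => (univ : Finset (Fin (K + 1))).image fun j : Fin (K + 1) =>
        (((j : Fin (K + 1)) : ℕ) : ℝ) / (K + 1)) ?_ ?_
    · intro i
      rw [Finset.card_image_of_injective]
      · rw [Finset.card_univ, Fintype.card_fin, Nat.lt_succ_iff]
        exact (degreeOf_le_totalDegree _ _).trans ((mem_restrictTotalDegree _ _ _).1 f.2)
      · intro a b hab
        have h2 : (K + 1 : ℝ) ≠ 0 := by positivity
        have h3 : ((a : ℕ) : ℝ) / (K + 1) = ((b : ℕ) : ℝ) / (K + 1) := hab
        rw [div_left_inj' h2] at h3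
        exact Fin.ext (by exact_mod_cast h3)
    · intro x hx
      have : ∀ i, ∃ j : Fin (K + 1), ((j : ℕ) : ℝ) / (K + 1) = x i := fun i => by
        obtain ⟨j, -, hj⟩ := Finset.mem_image.1 (hx i)
        exact ⟨j, hj⟩
      choose j hj using this
      have h1 := congrFun hf j
      have h2 : gd m K j = x := funext fun i => hj i
      have h3 : eval (gd m K j) f.1 = 0 := h1
      rwa [h2] at h3
  exact Subtype.ext h0

/-- A coefficient is bounded by the values on the box. -/
theorem coeff_le_box (m K : ℕ) : ∃ C : ℝ, 1 ≤ C ∧ ∀ (f : MvPolynomial (Fin m) ℝ) (s : ℝ),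
    f.totalDegree ≤ K → (∀ z : Fin m → ℝ, (∀ i, |z i| ≤ 1) → |eval z f| ≤ s) →
    ∀ β, |coeff β f| ≤ C * s := by
  classical
  obtain ⟨G, hG⟩ := LinearMap.exists_leftInverse_of_injective (vals m K) (vals_inj m K)
  -- the coefficient functional
  set ℓ : (Fin m →₀ ℕ) → ((Fin m → Fin (K + 1)) → ℝ) → ℝ := fun β x => coeff β (G x).1 with hℓ
  set T : Finset (Fin m →₀ ℕ) := (Finset.univ : Finset (Fin m → Fin (K + 1))).image
    fun b => Finsupp.equivFunOnFinite.symm fun i => (b i : ℕ) with hT
  have hlin : ∀ β x, ℓ β x = ∑ g, x g * ℓ β (Pi.single g 1) := by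
    intro β x
    have h1 : x = ∑ g, x g • (Pi.single g 1 : (Fin m → Fin (K + 1)) → ℝ) := by
      funext g'
      rw [Finset.sum_apply, Finset.sum_eq_single g']
      · simp
      · intro b _ hb
        simp [Pi.single_apply, Ne.symm hb]
      · intro h
        exact absurd (Finset.mem_univ _) h
    have h2 : (G x) = ∑ g, x g • G (Pi.single g 1) := by
      conv_lhs => rw [h1]
      rw [map_sum]
      exact Finset.sum_congr rfl fun g _ => by rw [map_smul]
    simp only [hℓ]
    rw [h2]
    have h3 : ((∑ g, x g • G (Pi.single g 1) : restrictTotalDegree (Fin m) ℝ K)).1 =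
        ∑ g, x g • (G (Pi.single g 1)).1 := by
      push_cast
      rfl
    rw [h3, coeff_sum]
    exact Finset.sum_congr rfl fun g _ => by rw [coeff_smul, smul_eq_mul]
  refine ⟨1 + ∑ β ∈ T, ∑ g, |ℓ β (Pi.single g 1)|, ?_, ?_⟩
  · have : 0 ≤ ∑ β ∈ T, ∑ g, |ℓ β (Pi.single g 1)| :=
      Finset.sum_nonneg fun β _ => Finset.sum_nonneg fun g _ => abs_nonneg _
    linarith
  intro f s hf hs β
  have hs0 : 0 ≤ s := (abs_nonneg _).trans (hs 0 fun i => by simp)
  have hsum0 : 0 ≤ ∑ β ∈ T, ∑ g, |ℓ β (Pi.single g 1)| :=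
      Finset.sum_nonneg fun β _ => Finset.sum_nonneg fun g _ => abs_nonneg _
  by_cases hβ : β ∈ T
  · have hmem : f ∈ restrictTotalDegree (Fin m) ℝ K := (mem_restrictTotalDegree _ _ _).2 hf
    have h1 : G (vals m K ⟨f, hmem⟩) = ⟨f, hmem⟩ := by
      have := congrArg (fun L => L ⟨f, hmem⟩) hG
      simpa using this
    have h2 : coeff β f = ℓ β (vals m K ⟨f, hmem⟩) := by
      simp only [hℓ]
      rw [h1]
    rw [h2, hlin]
    calc |∑ g, vals m K ⟨f, hmem⟩ g * ℓ β (Pi.single g 1)|
        ≤ ∑ g, |vals m K ⟨f, hmem⟩ g * ℓ β (Pi.single g 1)| := Finset.abs_sum_le_sum_abs _ _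
      _ ≤ ∑ g, s * |ℓ β (Pi.single g 1)| := by
          refine Finset.sum_le_sum fun g _ => ?_
          rw [abs_mul]
          exact mul_le_mul_of_nonneg_right (hs _ (gd_le g)) (abs_nonneg _)
      _ = s * ∑ g, |ℓ β (Pi.single g 1)| := by rw [Finset.mul_sum]
      _ ≤ s * ∑ β ∈ T, ∑ g, |ℓ β (Pi.single g 1)| := by
          refine mul_le_mul_of_nonneg_left ?_ hs0
          exact Finset.single_le_sum (f := fun β => ∑ g, |ℓ β (Pi.single g 1)|)
            (fun β _ => Finset.sum_nonneg fun g _ => abs_nonneg _) hβ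
      _ ≤ (1 + ∑ β ∈ T, ∑ g, |ℓ β (Pi.single g 1)|) * s := by nlinarith
  · have h0 : coeff β f = 0 := by
      by_contra hne
      refine hβ ?_
      have hmem : β ∈ f.support := mem_support_iff.2 hne
      have hle : ∀ i, β i < K + 1 := by
        intro i
        have h1 := le_totalDegree hmem
        have h2 : β i ≤ β.sum fun _ e => e := by
          by_cases hi : i ∈ β.support
          · exact Finset.single_le_sum (f := fun j => β j) (fun j _ => Nat.zero_le _) hi
          · rw [Finsupp.notMem_support_iff.1 hi]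
            exact Nat.zero_le _
        omega
      rw [hT, Finset.mem_image]
      refine ⟨fun i => ⟨β i, hle i⟩, Finset.mem_univ _, ?_⟩
      ext i
      simp
    rw [h0, abs_zero]
    positivity

end Pool.FRP
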